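import Pool.Agent.Odp2.Defs

open scoped ContDiff Topology ENNReal NNReal WithZero
open Set MeasureTheory Filter MvPolynomial Pool.Agent.ODP

namespace Pool.Agent.Odp2

theorem null_isOpen_bal (n : ℕ) (ρ : ℝ) : IsOpen (bal n ρ) := by
  unfold bal nq
  exact isOpen_lt (by fun_prop) continuous_const

theorem null_convex_bal (n : ℕ) (ρ : ℝ) : Convex ℝ (bal n ρ) := by
  intro x hx y hy a b ha hb hab
  have key : nq (a • x + b • y) ≤ a * nq x + b * nq y := by
    unfold nq
    rw [Finset.mul_sum, Finset.mul_sum, ← Finset.sum_add_distrib]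
    refine Finset.sum_le_sum fun j _ => ?_
    have h1 : ‖(a • x + b • y) j‖ ≤ a * ‖x j‖ + b * ‖y j‖ := by
      refine (norm_add_le _ _).trans ?_
      simp [abs_of_nonneg ha, abs_of_nonneg hb]
    have h2 : (a * ‖x j‖ + b * ‖y j‖) ^ 2 ≤ a * ‖x j‖ ^ 2 + b * ‖y j‖ ^ 2 := by
      have hb' : b = 1 - a := by linarith
      have h3 : 0 ≤ a * b * (‖x j‖ - ‖y j‖) ^ 2 := by positivity
      have h4 : a * ‖x j‖ ^ 2 + b * ‖y j‖ ^ 2 - (a * ‖x j‖ + b * ‖y j‖) ^ 2
          = a * b * (‖x j‖ - ‖y j‖) ^ 2 := by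
        subst hb'; ring
      linarith
    exact (pow_le_pow_left₀ (norm_nonneg _) h1 2).trans h2
  have hx' : nq x < ρ ^ 2 := hx
  have hy' : nq y < ρ ^ 2 := hy
  change nq (a • x + b • y) < ρ ^ 2
  refine key.trans_lt ?_
  rcases ha.eq_or_lt with ha0 | ha0
  · have hb1 : b = 1 := by linarith
    rw [← ha0, hb1]; linarith
  · have h1 : a * nq x < a * ρ ^ 2 := mul_lt_mul_of_pos_left hx' ha0
    have h2 : b * nq y ≤ b * ρ ^ 2 := mul_le_mul_of_nonneg_left hy'.le hb
    have h3 : a * ρ ^ 2 + b * ρ ^ 2 = ρ ^ 2 := by rw [← add_mul, hab, one_mul]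
    linarith

theorem null_slice {n : ℕ} {ρ : ℝ} {Q : (Fin n → ℂ) → ℂ} (hQ : DifferentiableOn ℂ Q (bal n ρ))
    {w₀ : Fin n → ℂ} (h0 : w₀ ∈ bal n ρ) (hne : Q w₀ ≠ 0) (v : Fin n → ℂ) :
    volume {t : ℝ | w₀ + t • v ∈ bal n ρ ∧ Q (w₀ + t • v) = 0} = 0 := by
  set L : ℂ → (Fin n → ℂ) := fun z => w₀ + z • v with hL
  have hLc : Continuous L := by fun_prop
  have hLd : Differentiable ℂ L := by fun_prop
  have hL0 : L 0 = w₀ := by simp [hL]
  have hLr : ∀ t : ℝ, L (t : ℂ) = w₀ + t • v := by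
    intro t; ext j; simp [hL]
  set U : Set ℂ := L ⁻¹' bal n ρ with hU
  have hUo : IsOpen U := (null_isOpen_bal n ρ).preimage hLc
  have hUc : Convex ℝ U := by
    intro x hx y hy a b ha hb hab
    have h1 := null_convex_bal n ρ hx hy ha hb hab
    have e : L (a • x + b • y) = a • L x + b • L y := by
      have h3 : a • L x + b • L y = (a + b) • w₀ + (a • x + b • y) • v := by
        simp only [hL]
        ext j
        simp only [Pi.add_apply, Pi.smul_apply, smul_eq_mul, Complex.real_smul]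
        push_cast
        ring
      rw [h3, hab, one_smul]
    change L (a • x + b • y) ∈ bal n ρ
    rw [e]
    exact h1
  have hF : AnalyticOnNhd ℂ (fun z => Q (L z)) U :=
    (hQ.comp hLd.differentiableOn (fun z hz => hz)).analyticOnNhd hUo
  have h0U : (0 : ℂ) ∈ U := by
    change L 0 ∈ bal n ρ
    rw [hL0]; exact h0
  have hcod := hF.preimage_zero_mem_codiscreteWithin (x := 0)
    (by rw [hL0]; exact hne) h0U ⟨⟨0, h0U⟩, hUc.isPreconnected⟩
  rw [mem_codiscreteWithin_iff_forall_mem_nhdsNE] at hcod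
  set V : Set ℝ := {t : ℝ | (t : ℂ) ∈ U} with hV
  have hVm : MeasurableSet V := (hUo.preimage Complex.continuous_ofReal).measurableSet
  have h2 : {t : ℝ | Q (L t) ≠ 0} ∈ codiscreteWithin V := by
    rw [mem_codiscreteWithin_iff_forall_mem_nhdsNE]
    intro t ht
    have tt : Tendsto (fun s : ℝ => (s : ℂ)) (𝓝[≠] t) (𝓝[≠] (t : ℂ)) := by
      refine tendsto_nhdsWithin_of_tendsto_nhds_of_eventually_within _
        ((Complex.continuous_ofReal.tendsto t).mono_left nhdsWithin_le_nhds) ?_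
      filter_upwards [self_mem_nhdsWithin] with s hs
      intro hc
      exact hs (by simpa using hc)
    filter_upwards [tt (hcod t ht)] with s hs
    rcases hs with hs | hs
    · exact Or.inl hs
    · exact Or.inr hs
  have h3 := ae_restrict_le_codiscreteWithin (μ := (volume : Measure ℝ)) hVm h2
  rw [mem_ae_iff, Measure.restrict_apply' hVm] at h3
  refine measure_mono_null ?_ h3
  rintro t ⟨ht1, ht2⟩
  rw [← hLr t] at ht1 ht2
  exact ⟨fun h => h ht2, ht1⟩

/-- the zero set of a holomorphic function on a ball has measure zero. -/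
theorem null_zeros {n : ℕ} {ρ : ℝ} {Q : (Fin n → ℂ) → ℂ} (hQ : DifferentiableOn ℂ Q (bal n ρ))
    (hne : ∃ w ∈ bal n ρ, Q w ≠ 0) : volume {w | w ∈ bal n ρ ∧ Q w = 0} = 0 := by
  obtain ⟨w₀, h0, hne⟩ := hne
  set A : Set (Fin n → ℂ) := {w | w ∈ bal n ρ ∧ Q w = 0} with hA
  have hAm : MeasurableSet A := by
    have h1 : IsOpen (bal n ρ ∩ Q ⁻¹' {0}ᶜ) :=
      hQ.continuousOn.isOpen_inter_preimage (null_isOpen_bal n ρ) isOpen_compl_singleton
    have h2 : A = bal n ρ \ (bal n ρ ∩ Q ⁻¹' {0}ᶜ) := by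
      ext z
      constructor
      · rintro ⟨h3, h4⟩
        exact ⟨h3, fun h5 => h5.2 h4⟩
      · rintro ⟨h3, h4⟩
        refine ⟨h3, ?_⟩
        by_contra h5
        exact h4 ⟨h3, h5⟩
    rw [h2]
    exact (null_isOpen_bal n ρ).measurableSet.diff h1.measurableSet
  have hm : Measurable fun p : (Fin n → ℂ) × ℝ => w₀ + p.2 • p.1 :=
    (continuous_const.add (continuous_snd.smul continuous_fst)).measurable
  have hm' : Measurable fun p : ℝ × (Fin n → ℂ) => w₀ + p.1 • p.2 :=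
    (continuous_const.add (continuous_fst.smul continuous_snd)).measurable
  set Z : Set ((Fin n → ℂ) × ℝ) := (fun p : (Fin n → ℂ) × ℝ => w₀ + p.2 • p.1) ⁻¹' A with hZ
  have hZm : MeasurableSet Z := hm hAm
  have h1 : ((volume : Measure (Fin n → ℂ)).prod (volume : Measure ℝ)) Z = 0 := by
    rw [Measure.measure_prod_null hZm]
    exact Eventually.of_forall fun v => null_slice hQ h0 hne v
  have h2 : ((volume : Measure ℝ).prod (volume : Measure (Fin n → ℂ))) (Prod.swap ⁻¹' Z) = 0 := by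
    rw [← Measure.prod_swap, Measure.map_apply measurable_swap (measurable_swap hZm)]
    exact h1
  have h3 := Measure.measure_ae_null_of_prod_null h2
  have h4 : ∀ᵐ t : ℝ, t ≠ 0 := by
    rw [ae_iff]; simp
  obtain ⟨t, ht, ht0⟩ := (h3.and h4).exists
  have h5 : (volume : Measure (Fin n → ℂ)) ((t • ·) ⁻¹' ((fun w => w₀ + w) ⁻¹' A)) = 0 := ht
  rw [Measure.addHaar_preimage_smul _ ht0, measure_preimage_add, mul_eq_zero] at h5
  rcases h5 with h5 | h5
  · exfalso
    rw [ENNReal.ofReal_eq_zero] at h5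
    have : 0 < |(t ^ Module.finrank ℝ (Fin n → ℂ))⁻¹| := by positivity
    linarith
  · exact h5

end Pool.Agent.Odp2
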