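import Pool.Agent.Odp2.Defs

/-! The mean value property with a weight with a pole. -/

namespace Pool.Agent.Odp2

namespace Pole

open scoped ContDiff Topology ENNReal NNReal
open Set MeasureTheory Filter Metric

/-- Sub-mean value inequality over a circle, in `lintegral` form. -/
lemma circle_submean {g : ℂ → ℂ} {z : ℂ} {t r : ℝ} (ht : 0 < t) (htr : t < r)
    (hg : DifferentiableOn ℂ g (ball z r)) :
    ENNReal.ofReal (2 * Real.pi * ‖g z‖) ≤
      ∫⁻ θ in Ioo (-Real.pi) Real.pi, ENNReal.ofReal ‖g (circleMap z t θ)‖ := by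
  have hpi := Real.pi_pos
  have hsub : closedBall z t ⊆ ball z r := closedBall_subset_ball htr
  have hav : Real.circleAverage g z t = g z := by
    apply DiffContOnCl.circleAverage
    rw [abs_of_pos ht]
    apply DifferentiableOn.diffContOnCl
    rw [closure_ball z ht.ne']
    exact hg.mono hsub
  have hcont : Continuous (fun θ : ℝ => g (circleMap z t θ)) := by
    rw [← continuousOn_univ]
    apply hg.continuousOn.comp (continuous_circleMap z t).continuousOn
    intro θ _
    exact hsub (circleMap_mem_closedBall z ht.le θ)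
  have h1 : g z = (2 * Real.pi)⁻¹ • ∫ θ in (-Real.pi)..Real.pi, g (circleMap z t θ) := by
    rw [← hav, Real.circleAverage_eq_integral_add (-Real.pi)]
    congr 1
    rw [intervalIntegral.integral_comp_add_right (fun θ => g (circleMap z t θ))]
    congr 1 <;> ring
  have h2 : 2 * Real.pi * ‖g z‖ ≤ ∫ θ in (-Real.pi)..Real.pi, ‖g (circleMap z t θ)‖ := by
    have h3 : (2 * Real.pi) • g z = ∫ θ in (-Real.pi)..Real.pi, g (circleMap z t θ) := by
      conv_lhs => rw [h1]
      rw [smul_smul, mul_inv_cancel₀ (by positivity), one_smul]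
    calc 2 * Real.pi * ‖g z‖ = ‖(2 * Real.pi) • g z‖ := by
          rw [norm_smul, Real.norm_of_nonneg (by positivity)]
      _ ≤ _ := by
          rw [h3]
          exact intervalIntegral.norm_integral_le_integral_norm (by linarith)
  calc ENNReal.ofReal (2 * Real.pi * ‖g z‖)
      ≤ ENNReal.ofReal (∫ θ in (-Real.pi)..Real.pi, ‖g (circleMap z t θ)‖) :=
        ENNReal.ofReal_le_ofReal h2
    _ = _ := by
        rw [intervalIntegral.integral_of_le (by linarith), integral_Ioc_eq_integral_Ioo,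
          ofReal_integral_eq_lintegral_ofReal]
        · exact (hcont.norm.integrableOn_Icc).mono_set Ioo_subset_Icc_self
        · exact ae_of_all _ (fun θ => norm_nonneg _)

/-- Sub-mean value inequality over a disc. -/
theorem area_submean0 {g : ℂ → ℂ} (hgm : Measurable g) {z : ℂ} {r : ℝ} (hr : 0 < r)
    (hg : DifferentiableOn ℂ g (ball z r)) :
    ENNReal.ofReal (Real.pi * r ^ 2 * ‖g z‖) ≤ ∫⁻ w in ball z r, ENNReal.ofReal ‖g w‖ := by
  have hpi := Real.pi_pos
  have h1 : ∫⁻ w in ball z r, ENNReal.ofReal ‖g w‖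
      = ∫⁻ w, (ball (0 : ℂ) r).indicator (fun w => ENNReal.ofReal ‖g (z + w)‖) w := by
    rw [← lintegral_indicator measurableSet_ball]
    rw [← lintegral_add_left_eq_self _ z]
    apply lintegral_congr
    intro w
    simp only [indicator, mem_ball, dist_zero_right, dist_self_add_left]
  have hmeas : Measurable ((ball (0 : ℂ) r).indicator (fun w => ENNReal.ofReal ‖g (z + w)‖)) :=
    (hgm.comp (measurable_const_add z)).norm.ennreal_ofReal.indicator measurableSet_ball
  rw [h1, ← Complex.lintegral_comp_polarCoord_symm]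
  have htarget : polarCoord.target = Ioi (0 : ℝ) ×ˢ Ioo (-Real.pi) Real.pi := rfl
  rw [htarget, Measure.volume_eq_prod, ← Measure.prod_restrict, lintegral_prod]
  swap
  · apply Measurable.aemeasurable
    have hpm : Measurable (Complex.polarCoord.symm : ℝ × ℝ → ℂ) := by
      have : (Complex.polarCoord.symm : ℝ × ℝ → ℂ)
          = fun p => (p.1 : ℂ) * (Real.cos p.2 + Real.sin p.2 * Complex.I) := by
        funext p
        exact Complex.polarCoord_symm_apply p
      rw [this]
      fun_prop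
    exact (measurable_fst.ennreal_ofReal).smul (hmeas.comp hpm)
  have hinner : ∀ t ∈ Ioo (0 : ℝ) r, ENNReal.ofReal t * ENNReal.ofReal (2 * Real.pi * ‖g z‖) ≤
      ∫⁻ θ in Ioo (-Real.pi) Real.pi, ENNReal.ofReal (t, θ).1 •
        (ball (0 : ℂ) r).indicator (fun w => ENNReal.ofReal ‖g (z + w)‖)
          (Complex.polarCoord.symm (t, θ)) := by
    rintro t ⟨ht, htr⟩
    simp only [smul_eq_mul]
    rw [lintegral_const_mul']
    swap
    · exact ENNReal.ofReal_ne_top
    refine mul_le_mul_right ((circle_submean ht htr hg).trans (le_of_eq ?_)) _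
    apply lintegral_congr
    intro θ
    have h2 : Complex.polarCoord.symm (t, θ) ∈ ball (0 : ℂ) r := by
      rw [mem_ball_zero_iff, Complex.norm_polarCoord_symm]
      simpa [abs_of_pos ht] using htr
    rw [indicator_of_mem h2]
    congr 3
    rw [Complex.polarCoord_symm_apply, circleMap, Complex.exp_mul_I]
    simp
  calc ENNReal.ofReal (Real.pi * r ^ 2 * ‖g z‖)
      = ∫⁻ t in Ioo (0 : ℝ) r, ENNReal.ofReal t * ENNReal.ofReal (2 * Real.pi * ‖g z‖) := by
        rw [lintegral_mul_const' _ _ ENNReal.ofReal_ne_top]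
        have h3 : ∫⁻ t in Ioo (0 : ℝ) r, ENNReal.ofReal t = ENNReal.ofReal (r ^ 2 / 2) := by
          rw [← ofReal_integral_eq_lintegral_ofReal]
          · rw [← integral_Ioc_eq_integral_Ioo, ← intervalIntegral.integral_of_le hr.le]
            rw [integral_id]
            congr 1; ring
          · exact (continuous_id.integrableOn_Icc).mono_set Ioo_subset_Icc_self
          · rw [EventuallyLE, ae_restrict_iff' measurableSet_Ioo]
            exact ae_of_all _ (fun t ht => ht.1.le)
        rw [h3, ← ENNReal.ofReal_mul (by positivity)]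
        congr 1
        ring
    _ ≤ ∫⁻ t in Ioo (0 : ℝ) r, ∫⁻ θ in Ioo (-Real.pi) Real.pi, ENNReal.ofReal (t, θ).1 •
        (ball (0 : ℂ) r).indicator (fun w => ENNReal.ofReal ‖g (z + w)‖)
          (Complex.polarCoord.symm (t, θ)) := setLIntegral_mono' measurableSet_Ioo hinner
    _ ≤ _ := lintegral_mono_set Ioo_subset_Ioi_self

theorem area_submean {g : ℂ → ℂ} {z : ℂ} {r : ℝ} (hr : 0 < r)
    (hg : DifferentiableOn ℂ g (ball z r)) :
    ENNReal.ofReal (Real.pi * r ^ 2 * ‖g z‖) ≤ ∫⁻ w in ball z r, ENNReal.ofReal ‖g w‖ := by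
  classical
  have hm : Measurable ((ball z r).indicator g) := by
    have := hg.continuousOn.measurable_piecewise (g := (0 : ℂ → ℂ)) continuous_zero.continuousOn
      measurableSet_ball
    rwa [Set.piecewise_eq_indicator] at this
  have h := area_submean0 hm hr (hg.congr fun w hw => indicator_of_mem hw g)
  rw [indicator_of_mem (mem_ball_self hr)] at h
  refine h.trans (le_of_eq (setLIntegral_congr_fun measurableSet_ball fun w hw => ?_))
  rw [indicator_of_mem hw]

/-- The open polydisc. -/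
def PD {n : ℕ} (q : Fin n → ℂ) (s : Fin n → ℝ) : Set (Fin n → ℂ) := {w | ∀ j, ‖w j - q j‖ < s j}

lemma isOpen_PD {n : ℕ} (q : Fin n → ℂ) (s : Fin n → ℝ) : IsOpen (PD q s) := by
  have : PD q s = ⋂ j, {w : Fin n → ℂ | ‖w j - q j‖ < s j} := by
    ext w; simp [PD]
  rw [this]
  exact isOpen_iInter_of_finite fun j =>
    isOpen_lt (((continuous_apply j).sub continuous_const).norm) continuous_const

/-- Sub-mean value inequality over a polydisc. -/
theorem poly_submean {n : ℕ} {q : Fin n → ℂ} {s : Fin n → ℝ} (hs : ∀ j, 0 < s j)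
    {f : (Fin n → ℂ) → ℂ} (hf : DifferentiableOn ℂ f (PD q s)) :
    (∏ j, ENNReal.ofReal (Real.pi * s j ^ 2)) * ENNReal.ofReal (‖f q‖ ^ 2) ≤
      ∫⁻ w in PD q s, ENNReal.ofReal (‖f w‖ ^ 2) := by
  classical
  set F : (Fin n → ℂ) → ℝ≥0∞ := (PD q s).indicator (fun w => ENNReal.ofReal (‖f w‖ ^ 2)) with hF
  have hFm : Measurable F := by
    have h1 : Measurable ((PD q s).indicator f) := by
      have := hf.continuousOn.measurable_piecewise (g := (0 : (Fin n → ℂ) → ℂ))
        continuous_zero.continuousOn (isOpen_PD q s).measurableSet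
      rwa [Set.piecewise_eq_indicator] at this
    have h2 : F = fun w => ENNReal.ofReal (‖(PD q s).indicator f w‖ ^ 2) := by
      funext w
      by_cases hw : w ∈ PD q s
      · rw [hF, indicator_of_mem hw, indicator_of_mem hw]
      · rw [hF, indicator_of_notMem hw, indicator_of_notMem hw]; simp
    rw [h2]
    exact (h1.norm.pow_const 2).ennreal_ofReal
  have key : ∀ S : Finset (Fin n), ∀ x : Fin n → ℂ, (∀ j, j ∉ S → ‖x j - q j‖ < s j) →
      (∏ j ∈ S, ENNReal.ofReal (Real.pi * s j ^ 2)) *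
        ENNReal.ofReal (‖f (S.piecewise q x)‖ ^ 2) ≤
      (∫⋯∫⁻_S, F ∂(fun _ : Fin n => (volume : Measure ℂ))) x := by
    intro S
    induction S using Finset.induction_on with
    | empty =>
      intro x hx
      rw [lmarginal_empty]
      have hx' : x ∈ PD q s := fun j => hx j (by simp)
      rw [hF, indicator_of_mem hx']
      simp
    | insert i S hi ih =>
      intro x hx
      rw [lmarginal_insert F hFm hi]
      have hU : ∀ ξ ∈ ball (q i) (s i), ∀ j, j ∉ S → ‖Function.update x i ξ j - q j‖ < s j := by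
        intro ξ hξ j hj
        by_cases hji : j = i
        · subst hji; simpa [dist_eq_norm] using hξ
        · rw [Function.update_of_ne hji]
          exact hx j (by simp [hji, hj])
      set g : ℂ → ℂ := fun ξ => f (S.piecewise q (Function.update x i ξ)) ^ 2 with hg
      have hgd : DifferentiableOn ℂ g (ball (q i) (s i)) := by
        apply DifferentiableOn.pow
        refine hf.comp (t := PD q s) ?_ ?_
        · intro ξ _
          apply DifferentiableAt.differentiableWithinAt
          rw [differentiableAt_pi]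
          intro j
          by_cases hj : j ∈ S
          · simp only [Finset.piecewise_eq_of_mem _ _ _ hj]
            exact differentiableAt_const _
          · simp only [Finset.piecewise_eq_of_notMem _ _ _ hj]
            by_cases hji : j = i
            · subst hji; simp
            · simp [Function.update_of_ne hji]
        · intro ξ hξ j
          change ‖S.piecewise q (Function.update x i ξ) j - q j‖ < s j
          by_cases hj : j ∈ S
          · rw [Finset.piecewise_eq_of_mem _ _ _ hj]; simpa using hs j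
          · rw [Finset.piecewise_eq_of_notMem _ _ _ hj]; exact hU ξ hξ j hj
      have hq : S.piecewise q (Function.update x i (q i)) = (insert i S).piecewise q x := by
        funext j
        by_cases hj : j ∈ S
        · rw [Finset.piecewise_eq_of_mem _ _ _ hj,
            Finset.piecewise_eq_of_mem _ _ _ (Finset.mem_insert_of_mem hj)]
        · rw [Finset.piecewise_eq_of_notMem _ _ _ hj]
          by_cases hji : j = i
          · subst hji; simp
          · rw [Function.update_of_ne hji, Finset.piecewise_eq_of_notMem]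
            simp [hji, hj]
      have hc : (∏ j ∈ S, ENNReal.ofReal (Real.pi * s j ^ 2)) ≠ ⊤ :=
        ENNReal.prod_ne_top fun j _ => ENNReal.ofReal_ne_top
      calc (∏ j ∈ insert i S, ENNReal.ofReal (Real.pi * s j ^ 2)) *
            ENNReal.ofReal (‖f ((insert i S).piecewise q x)‖ ^ 2)
          = (∏ j ∈ S, ENNReal.ofReal (Real.pi * s j ^ 2)) *
            ENNReal.ofReal (Real.pi * s i ^ 2 * ‖g (q i)‖) := by
            rw [Finset.prod_insert hi, hg]
            simp only
            rw [hq, norm_pow, ENNReal.ofReal_mul (p := Real.pi * s i ^ 2) (by positivity)]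
            ring
        _ ≤ (∏ j ∈ S, ENNReal.ofReal (Real.pi * s j ^ 2)) *
            ∫⁻ ξ in ball (q i) (s i), ENNReal.ofReal ‖g ξ‖ := by
            gcongr
            exact area_submean (hs i) hgd
        _ = ∫⁻ ξ in ball (q i) (s i), (∏ j ∈ S, ENNReal.ofReal (Real.pi * s j ^ 2)) *
              ENNReal.ofReal ‖g ξ‖ := (lintegral_const_mul' _ _ hc).symm
        _ ≤ ∫⁻ ξ in ball (q i) (s i), (∫⋯∫⁻_S, F ∂(fun _ : Fin n => (volume : Measure ℂ)))
              (Function.update x i ξ) := by
            refine setLIntegral_mono' measurableSet_ball fun ξ hξ => ?_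
            have := ih (Function.update x i ξ) (hU ξ hξ)
            simpa only [hg, norm_pow] using this
        _ ≤ _ := setLIntegral_le_lintegral _ _
  have h := key Finset.univ q (fun j hj => absurd (Finset.mem_univ j) hj)
  rw [← lintegral_indicator (isOpen_PD q s).measurableSet]
  have h2 := lintegral_eq_lmarginal_univ (μ := fun _ : Fin n => (volume : Measure ℂ)) (f := F) q
  rw [← h2] at h
  have e : (Finset.univ : Finset (Fin n)).piecewise q q = q := by
    funext j; simp
  rw [e] at h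
  exact h

/-- The weight on the `k`-th polydisc. -/
noncomputable def wt (C' : ℝ) (N : ℕ) (A η : ℝ) (k : ℕ) : ℝ := (C' * (1 / 4) ^ (N * k) + η) ^ (-A)

lemma wt_nonneg {C' : ℝ} (hC : 0 < C') (N : ℕ) (A : ℝ) {η : ℝ} (hη : 0 ≤ η) (k : ℕ) :
    0 ≤ wt C' N A η k := by
  unfold wt; positivity

lemma wt_mono {C' : ℝ} (hC : 0 < C') (N : ℕ) {A : ℝ} (hA : 0 ≤ A) {η : ℝ} (hη : 0 ≤ η) (k : ℕ) :
    wt C' N A η k ≤ wt C' N A η (k + 1) := by
  unfold wt
  apply Real.rpow_le_rpow_of_nonpos (by positivity) _ (by linarith)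
  gcongr ?_ + η
  apply mul_le_mul_of_nonneg_left _ hC.le
  apply pow_le_pow_of_le_one (by norm_num) (by norm_num)
  exact Nat.mul_le_mul_left _ (Nat.le_succ k)

/-- `K` shells contribute at least `K κ` for small `η`. -/
theorem exists_eta {C' : ℝ} (hC : 0 < C') {N S : ℕ} (hS : 1 ≤ S) {A : ℝ} (hA : (S : ℝ) ≤ A * N)
    {V0 : ℝ} (hV : 0 < V0) (M : ℝ) : ∃ K : ℕ, ∃ η₀ : ℝ, 0 < η₀ ∧ ∀ η, 0 < η → η ≤ η₀ →
      M < ∑ k ∈ Finset.range K, (wt C' N A η (k + 1) - wt C' N A η k) *
        (V0 * (1 / 4) ^ (S * (k + 1))) := by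
  have hA0 : 0 < A * N := lt_of_lt_of_le (by exact_mod_cast hS) hA
  set ρ : ℝ := (4 : ℝ) ^ (A * N) with hρ
  have hρ1 : 1 < ρ := Real.one_lt_rpow (by norm_num) hA0
  have hρS : (4 : ℝ) ^ S ≤ ρ := by
    rw [hρ, ← Real.rpow_natCast]
    exact Real.rpow_le_rpow_of_exponent_le (by norm_num) hA
  have hw0 : ∀ k, wt C' N A 0 k = C' ^ (-A) * ρ ^ k := by
    intro k
    unfold wt
    rw [add_zero, Real.mul_rpow hC.le (by positivity)]
    congr 1
    rw [hρ, ← Real.rpow_natCast, ← Real.rpow_mul (by norm_num), ← Real.rpow_natCast,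
      ← Real.rpow_mul (by norm_num), one_div, Real.inv_rpow (by norm_num), ← Real.rpow_neg
      (by norm_num)]
    congr 1
    push_cast
    ring
  set κ : ℝ := C' ^ (-A) * V0 * (ρ - 1) / 4 ^ S with hκ
  have hCA : 0 < C' ^ (-A) := Real.rpow_pos_of_pos hC _
  have hκ0 : 0 < κ := by
    rw [hκ]
    have : 0 < ρ - 1 := by linarith
    positivity
  obtain ⟨K, hK⟩ := exists_nat_gt (M / κ)
  have hK' : M < K * κ := by rwa [div_lt_iff₀ hκ0] at hK
  refine ⟨K, ?_⟩
  set H : ℝ → ℝ := fun η => ∑ k ∈ Finset.range K, (wt C' N A η (k + 1) - wt C' N A η k) *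
        (V0 * (1 / 4) ^ (S * (k + 1))) with hH
  have hterm : ∀ k, κ ≤ (wt C' N A 0 (k + 1) - wt C' N A 0 k) * (V0 * (1 / 4) ^ (S * (k + 1))) := by
    intro k
    rw [hw0, hw0, hκ]
    have h1 : (C' ^ (-A) * ρ ^ (k + 1) - C' ^ (-A) * ρ ^ k) * (V0 * (1 / 4) ^ (S * (k + 1)))
        = C' ^ (-A) * V0 * (ρ - 1) / 4 ^ S * (ρ / 4 ^ S) ^ k := by
      rw [one_div, inv_pow, div_pow, pow_mul]
      field_simp
      ring
    rw [h1]
    have h2 : 1 ≤ (ρ / 4 ^ S) ^ k := one_le_pow₀ ((one_le_div (by positivity)).2 hρS)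
    exact le_mul_of_one_le_right hκ0.le h2
  have hH0 : M < H 0 := by
    refine hK'.trans_le ?_
    rw [hH]
    calc (K : ℝ) * κ = ∑ k ∈ Finset.range K, κ := by simp
      _ ≤ _ := Finset.sum_le_sum fun k _ => hterm k
  have hwc : ∀ k, ContinuousAt (fun η => wt C' N A η k) 0 := by
    intro k
    unfold wt
    refine ContinuousAt.rpow (by fun_prop) continuousAt_const (Or.inl ?_)
    have : 0 < C' * (1 / 4 : ℝ) ^ (N * k) := by positivity
    simpa using this.ne'
  have hHc : ContinuousAt H 0 := by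
    rw [hH]
    refine tendsto_finsetSum _ fun k _ => ?_
    exact ((hwc (k + 1)).sub (hwc k)).mul continuousAt_const
  have hev : ∀ᶠ η in 𝓝 (0 : ℝ), M < H η := hHc.eventually (lt_mem_nhds hH0)
  obtain ⟨δ, hδ, hδH⟩ := Metric.eventually_nhds_iff.1 hev
  refine ⟨δ / 2, by positivity, fun η h1 h2 => hδH ?_⟩
  rw [Real.dist_eq, sub_zero, abs_of_pos h1]
  linarith

/-- The layers are bounded by the weight. -/
lemma layers {C' : ℝ} (hC : 0 < C') (N : ℕ) {A : ℝ} {η : ℝ} (hη : 0 ≤ η)
    {X : Type*} (P : ℕ → Set X) (hP : ∀ k, P (k + 1) ⊆ P k) (W : X → ℝ)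
    (hW : ∀ k, ∀ x ∈ P k, wt C' N A η k ≤ W x) (K : ℕ) (x : X) (hx : x ∈ P 0) :
    ∑ k ∈ Finset.range K, (P (k + 1)).indicator
      (fun _ => wt C' N A η (k + 1) - wt C' N A η k) x ≤ W x := by
  have hmono : ∀ j k, j ≤ k → P k ⊆ P j := by
    intro j k hjk
    induction hjk with
    | refl => exact subset_rfl
    | step _ ih => exact (hP _).trans ih
  induction K with
  | zero => simpa using (wt_nonneg hC N A hη 0).trans (hW 0 x hx)
  | succ K ih =>
    by_cases hxK : x ∈ P (K + 1)
    · have h1 : ∑ k ∈ Finset.range (K + 1), (P (k + 1)).indicator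
          (fun _ => wt C' N A η (k + 1) - wt C' N A η k) x
          = ∑ k ∈ Finset.range (K + 1), (wt C' N A η (k + 1) - wt C' N A η k) := by
        refine Finset.sum_congr rfl fun k hk => ?_
        rw [Finset.mem_range] at hk
        rw [indicator_of_mem (hmono (k + 1) (K + 1) (by omega) hxK)]
      rw [h1, Finset.sum_range_sub (fun k => wt C' N A η k)]
      have := wt_nonneg hC N A hη 0
      have := hW _ x hxK
      linarith
    · rw [Finset.sum_range_succ, indicator_of_notMem hxK, add_zero]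
      exact ih

lemma sum_lintegral_le {X : Type*} [MeasurableSpace X] (μ : Measure X) (K : ℕ)
    (G : ℕ → X → ℝ≥0∞) :
    ∑ k ∈ Finset.range K, ∫⁻ x, G k x ∂μ ≤ ∫⁻ x, ∑ k ∈ Finset.range K, G k x ∂μ := by
  induction K with
  | zero => simp
  | succ K ih =>
    simp only [Finset.sum_range_succ]
    exact (add_le_add_left ih _).trans (le_lintegral_add _ _)

end Pole

end Pool.Agent.Odp2

open scoped ContDiff Topology ENNReal NNReal WithZero
open Set MeasureTheory Filter MvPolynomial Pool.Agent.ODP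

namespace Pool.Agent.Odp2

/-- the mean value property with the weight `(C ∑ |w_j|^(2N/a_j) + η)^(-A)`. -/
theorem pole {n : ℕ} (hn : 1 ≤ n) (a : Fin n → ℕ) (ha : ∀ j, 1 ≤ a j) {N : ℕ} (hN : 1 ≤ N) {A : ℝ}
    (hA : ((∑ j, a j : ℕ) : ℝ) ≤ A * N) {C t ε : ℝ} (hC : 0 < C) (ht : 0 < t) (hε : 0 < ε)
    {M : ℝ≥0∞} (hM : M ≠ ⊤) : ∃ η₀ : ℝ, 0 < η₀ ∧ ∀ η, 0 < η → η ≤ η₀ →
      ∀ (q : Fin n → ℂ) (f : (Fin n → ℂ) → ℂ), DifferentiableOn ℂ f {w | ∀ j, ‖w j - q j‖ < t} →
        ∫⁻ w in {w : Fin n → ℂ | ∀ j, ‖w j - q j‖ < t}, ENNReal.ofReal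
          (‖f w‖ ^ 2 * (C * ∑ j, ‖w j - q j‖ ^ (2 * (N : ℝ) / a j) + η) ^ (-A)) ≤ M →
        ‖f q‖ ≤ ε := by
  set S : ℕ := ∑ j, a j with hSdef
  have hS : 1 ≤ S := by
    have h1 := Finset.single_le_sum (f := a) (fun j _ => Nat.zero_le _)
      (Finset.mem_univ (⟨0, hn⟩ : Fin n))
    exact (ha ⟨0, hn⟩).trans h1
  have hApos : 0 < A := by
    have h1 : (1 : ℝ) ≤ S := by exact_mod_cast hS
    have h2 : (0 : ℝ) < N := by exact_mod_cast hN
    by_contra h3
    push Not at h3
    nlinarith
  set T : ℝ := ∑ j, t ^ (2 * (N : ℝ) / a j) with hT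
  have hT0 : 0 < T := Finset.sum_pos (fun j _ => Real.rpow_pos_of_pos ht _) ⟨⟨0, hn⟩, Finset.mem_univ _⟩
  have hC' : 0 < C * T := mul_pos hC hT0
  have hV : 0 < (Real.pi * t ^ 2) ^ n := by positivity
  obtain ⟨K, η₀, hη₀, hK⟩ := Pole.exists_eta hC' hS hA hV (M.toReal / ε ^ 2)
  refine ⟨η₀, hη₀, fun η hη hηη q f hf hint => ?_⟩
  by_contra hcon
  push Not at hcon
  have hsum := hK η hη hηη
  set s : ℕ → Fin n → ℝ := fun k j => t * (1 / 2) ^ (k * a j) with hs
  have hspos : ∀ k j, 0 < s k j := fun k j => by rw [hs]; positivity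
  set P : ℕ → Set (Fin n → ℂ) := fun k => Pole.PD q (s k) with hP
  have hP0 : P 0 = {w | ∀ j, ‖w j - q j‖ < t} := by
    simp [hP, Pole.PD, hs]
  have hPP : ∀ k, P (k + 1) ⊆ P k := by
    intro k w hw j
    refine (hw j).trans_le ?_
    simp only [hs]
    apply mul_le_mul_of_nonneg_left _ ht.le
    apply pow_le_pow_of_le_one (by norm_num) (by norm_num)
    exact Nat.mul_le_mul_right _ (Nat.le_succ k)
  have hP0k : ∀ k, P k ⊆ P 0 := by
    intro k
    induction k with
    | zero => exact subset_rfl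
    | succ k ih => exact (hPP k).trans ih
  set W : (Fin n → ℂ) → ℝ := fun w => (C * ∑ j, ‖w j - q j‖ ^ (2 * (N : ℝ) / a j) + η) ^ (-A)
    with hW
  have hWk : ∀ k, ∀ w ∈ P k, Pole.wt (C * T) N A η k ≤ W w := by
    intro k w hw
    simp only [hW, Pole.wt]
    apply Real.rpow_le_rpow_of_nonpos _ _ (by linarith)
    · have : 0 ≤ ∑ j, ‖w j - q j‖ ^ (2 * (N : ℝ) / a j) :=
        Finset.sum_nonneg fun j _ => by positivity
      positivity
    · rw [mul_assoc, hT, Finset.sum_mul]
      gcongr ?_ + η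
      apply mul_le_mul_of_nonneg_left _ hC.le
      apply Finset.sum_le_sum
      intro j _
      have haj : (0 : ℝ) < a j := by exact_mod_cast ha j
      have h1 : t ^ (2 * (N : ℝ) / a j) * (1 / 4) ^ (N * k) = (s k j) ^ (2 * (N : ℝ) / a j) := by
        simp only [hs]
        rw [Real.mul_rpow ht.le (by positivity)]
        congr 1
        rw [← Real.rpow_natCast, ← Real.rpow_natCast, ← Real.rpow_mul (by norm_num),
          show (1 / 4 : ℝ) = (1 / 2) ^ (2 : ℝ) by norm_num, ← Real.rpow_mul (by norm_num)]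
        congr 1
        push_cast
        field_simp
      rw [h1]
      exact Real.rpow_le_rpow (norm_nonneg _) (hw j).le (by positivity)
  set D : ℕ → ℝ := fun k => Pole.wt (C * T) N A η (k + 1) - Pole.wt (C * T) N A η k with hD
  have hD0 : ∀ k, 0 ≤ D k := fun k => sub_nonneg.2 (Pole.wt_mono hC' N hApos.le hη.le k)
  have hvol : ∀ k, (∏ j, ENNReal.ofReal (Real.pi * s k j ^ 2))
      = ENNReal.ofReal ((Real.pi * t ^ 2) ^ n * (1 / 4) ^ (S * k)) := by
    intro k
    rw [← ENNReal.ofReal_prod_of_nonneg (fun j _ => by positivity)]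
    congr 1
    have h1 : ∀ j, Real.pi * s k j ^ 2 = (Real.pi * t ^ 2) * (1 / 4) ^ (a j * k) := by
      intro j
      simp only [hs]
      rw [mul_pow, ← pow_mul, mul_comm (k * a j) 2, pow_mul, mul_comm k]
      norm_num
      ring
    simp only [h1]
    rw [Finset.prod_mul_distrib, Finset.prod_const, Finset.prod_pow_eq_pow_sum, hSdef,
      Finset.sum_mul]
    simp
  have hlow : ENNReal.ofReal ((∑ k ∈ Finset.range K, D k *
      ((Real.pi * t ^ 2) ^ n * (1 / 4) ^ (S * (k + 1)))) * ‖f q‖ ^ 2) ≤ M := by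
    refine le_trans ?_ hint
    rw [← hP0]
    have hPm : ∀ k, MeasurableSet (P k) := fun k => (Pole.isOpen_PD q (s k)).measurableSet
    calc ENNReal.ofReal ((∑ k ∈ Finset.range K, D k *
          ((Real.pi * t ^ 2) ^ n * (1 / 4) ^ (S * (k + 1)))) * ‖f q‖ ^ 2)
        = ∑ k ∈ Finset.range K, ENNReal.ofReal (D k) *
          (ENNReal.ofReal ((Real.pi * t ^ 2) ^ n * (1 / 4) ^ (S * (k + 1))) *
            ENNReal.ofReal (‖f q‖ ^ 2)) := by
          rw [Finset.sum_mul, ENNReal.ofReal_sum_of_nonneg]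
          · refine Finset.sum_congr rfl fun k _ => ?_
            rw [mul_assoc, ENNReal.ofReal_mul (hD0 k), ENNReal.ofReal_mul (by positivity)]
          · intro k _
            have := hD0 k
            positivity
      _ ≤ ∑ k ∈ Finset.range K, ENNReal.ofReal (D k) *
          ∫⁻ w in P (k + 1), ENNReal.ofReal (‖f w‖ ^ 2) := by
          refine Finset.sum_le_sum fun k _ => ?_
          gcongr
          rw [← hvol (k + 1)]
          refine Pole.poly_submean (hspos (k + 1)) (hf.mono ?_)
          rw [← hP0]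
          exact hP0k (k + 1)
      _ = ∑ k ∈ Finset.range K, ∫⁻ w in P 0, (P (k + 1)).indicator
            (fun w => ENNReal.ofReal (D k) * ENNReal.ofReal (‖f w‖ ^ 2)) w := by
          refine Finset.sum_congr rfl fun k _ => ?_
          rw [lintegral_indicator (hPm (k + 1)), Measure.restrict_restrict (hPm (k + 1)),
            inter_eq_left.2 (hP0k (k + 1)), lintegral_const_mul' _ _ ENNReal.ofReal_ne_top]
      _ ≤ ∫⁻ w in P 0, ∑ k ∈ Finset.range K, (P (k + 1)).indicator
            (fun w => ENNReal.ofReal (D k) * ENNReal.ofReal (‖f w‖ ^ 2)) w :=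
          Pole.sum_lintegral_le _ K _
      _ ≤ ∫⁻ w in P 0, ENNReal.ofReal (‖f w‖ ^ 2 * W w) := by
          refine setLIntegral_mono' (hPm 0) fun w hw => ?_
          have h1 := Pole.layers hC' N hη.le P hPP W hWk K w hw
          have h2 : ∑ k ∈ Finset.range K, (P (k + 1)).indicator
              (fun w => ENNReal.ofReal (D k) * ENNReal.ofReal (‖f w‖ ^ 2)) w
              = ENNReal.ofReal ((∑ k ∈ Finset.range K, (P (k + 1)).indicator
                (fun _ => D k) w) * ‖f w‖ ^ 2) := by
            rw [Finset.sum_mul, ENNReal.ofReal_sum_of_nonneg]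
            · refine Finset.sum_congr rfl fun k _ => ?_
              by_cases hk : w ∈ P (k + 1)
              · rw [indicator_of_mem hk, indicator_of_mem hk, ENNReal.ofReal_mul (hD0 k)]
              · rw [indicator_of_notMem hk, indicator_of_notMem hk]; simp
            · intro k _
              have h3 : 0 ≤ (P (k + 1)).indicator (fun _ => D k) w :=
                indicator_nonneg (fun _ _ => hD0 k) w
              positivity
          rw [h2]
          apply ENNReal.ofReal_le_ofReal
          rw [mul_comm (‖f w‖ ^ 2)]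
          exact mul_le_mul_of_nonneg_right h1 (by positivity)
  have h1 : (∑ k ∈ Finset.range K, D k *
      ((Real.pi * t ^ 2) ^ n * (1 / 4) ^ (S * (k + 1)))) * ‖f q‖ ^ 2 ≤ M.toReal :=
    (ENNReal.ofReal_le_iff_le_toReal hM).1 hlow
  have h2 : M.toReal < (∑ k ∈ Finset.range K, D k *
      ((Real.pi * t ^ 2) ^ n * (1 / 4) ^ (S * (k + 1)))) * ε ^ 2 := by
    rwa [div_lt_iff₀ (by positivity)] at hsum
  have h3 : 0 ≤ ∑ k ∈ Finset.range K, D k *
      ((Real.pi * t ^ 2) ^ n * (1 / 4) ^ (S * (k + 1))) :=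
    (div_nonneg ENNReal.toReal_nonneg (by positivity)).trans hsum.le
  have h4 : ε ^ 2 ≤ ‖f q‖ ^ 2 := by gcongr
  have h5 := mul_le_mul_of_nonneg_left h4 h3
  linarith

end Pool.Agent.Odp2
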